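import Mathlib

/-!
# No unwanted codes: the combinatorial core

`C` is the type of the finite sets of atoms `(j, u)`, `(j, π)` (`u` a node, `π` a pair), given by the
two relations `nd` and `pr`. The statement is independent of the framework: the closure of `C` under
the few operations which are used is part of the hypotheses.
-/

namespace Pool.Agent.Sep3

variable {C J T Pr Sq B : Type*}

/-- The finite sets of atoms. -/
structure Atoms (C J T Pr : Type*) where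
  /-- `(j, u) ∈ p` for a node `u` -/
  nd : C → J → T → Prop
  /-- `(j, π) ∈ p` for a pair `π` -/
  pr : C → J → Pr → Prop
  /-- `u` is a node of the branch `f_π` -/
  on : T → Pr → Prop

namespace Atoms

/-- `q ≤ p` -/
structure Le (A : Atoms C J T Pr) (q p : C) : Prop where
  nd : ∀ j u, A.nd p j u → A.nd q j u
  pr : ∀ j π, A.pr p j π → A.pr q j π
  new : ∀ j u π, A.nd q j u → ¬ A.nd p j u → A.pr p j π → ¬ A.on u π

variable {A : Atoms C J T Pr} {p q r : C}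

theorem Le.refl (A : Atoms C J T Pr) (p : C) : A.Le p p :=
  ⟨fun _ _ h => h, fun _ _ h => h, fun _ _ _ h h' => absurd h h'⟩

theorem Le.trans (h : A.Le r q) (h' : A.Le q p) : A.Le r p := by
  refine ⟨fun j u hu => h.nd j u (h'.nd j u hu), fun j π hp => h.pr j π (h'.pr j π hp),
    fun j u π hu hn hp => ?_⟩
  by_cases hq : A.nd q j u
  · exact h'.new j u π hq hn hp
  · exact h.new j u π hu hq (h'.pr j π hp)

/-- `p` is a condition for the names `W` -/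
def Ok (A : Atoms C J T Pr) (W : J → C → Sq → Prop) (c : Pr → Sq → Prop) (p : C) : Prop :=
  ∀ j π, A.pr p j π → ∃ a σ, W j a σ ∧ A.Le p a ∧ c π σ

/-- the condition `q` is compatible with an element `a` which puts `u` into `r` -/
def Pos (A : Atoms C J T Pr) (W : J → C → Sq → Prop) (c : Pr → Sq → Prop) (R : C → T → Prop)
    (q : C) (u : T) : Prop :=
  ∃ q' a, A.Ok W c q' ∧ A.Le q' q ∧ R a u ∧ A.Le q' a

end Atoms

/-- The part of the conditions in the countable elementary submodel `M`. -/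
structure SubM (A : Atoms C J T Pr) (W : J → C → Sq → Prop) where
  /-- `j ∈ M` -/
  MJ : J → Prop
  /-- the pair `π = (ξ, n)` belongs to `M`, that is, `ξ < M ∩ ω₁` -/
  low : Pr → Prop
  /-- `a ∈ M` -/
  MC : C → Prop
  name : ∀ j a σ, MJ j → W j a σ → MC a
  nd : ∀ a j u, MC a → A.nd a j u → MJ j
  pr : ∀ a j π, MC a → A.pr a j π → MJ j ∧ low π

/-- The closure of the finite sets of atoms under the operations of the proof. -/
structure Clo (A : Atoms C J T Pr) {W : J → C → Sq → Prop} (M : SubM A W) : Prop where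
  /-- the trace `q ∩ M` -/
  trace : ∀ q, ∃ s, M.MC s ∧ (∀ j u, A.nd s j u ↔ A.nd q j u ∧ M.MJ j) ∧
    ∀ j π, A.pr s j π ↔ A.pr q j π ∧ M.MJ j ∧ M.low π
  /-- the union `t ∪ q` -/
  union : ∀ t q, ∃ s, (∀ j u, A.nd s j u ↔ A.nd t j u ∨ A.nd q j u) ∧
    ∀ j π, A.pr s j π ↔ A.pr t j π ∨ A.pr q j π
  /-- the atoms `(j, _)` of `q` with `j ∈ M`, with `π` replaced by `π'` -/
  swap : ∀ q π π', ∃ s, (∀ j u, A.nd s j u ↔ A.nd q j u ∧ M.MJ j) ∧
    ∀ j ϖ, A.pr s j ϖ ↔ M.MJ j ∧ ((A.pr q j ϖ ∧ ϖ ≠ π) ∨ (A.pr q j π ∧ ϖ = π'))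

/-- The open set of the branches `g` such that some condition of `M` compatible with `q`, with the
branch of `π₀` replaced by `g`, puts a node of `g` of level `≥ m` into `r`. Here `on u g` says that
`u` is a node of `g`, and `seg g l u` that it is the node of level `l`. -/
def Wo (A : Atoms C J T Pr) {W : J → C → Sq → Prop} (c : Pr → Sq → Prop) (M : SubM A W)
    (R : C → T → Prop) (onB : T → B → Prop) (seg : B → ℕ → T → Prop) (q : C) (π₀ : Pr) (m : ℕ)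
    (g : B) : Prop :=
  ∃ l u a t, m ≤ l ∧ seg g l u ∧ R a u ∧ A.Ok W c t ∧ M.MC t ∧ A.Le t a ∧
    (∀ j v, A.nd q j v → M.MJ j → A.nd t j v) ∧
    (∀ j π, A.pr q j π → M.MJ j → M.low π → A.pr t j π) ∧
    (∀ j v π, A.nd t j v → ¬ A.nd q j v → A.pr q j π → M.low π → ¬ A.on v π) ∧
    ∀ j v π, A.nd t j v → ¬ A.nd q j v → A.pr q j π → ¬ M.low π →
      (π = π₀ → ¬ onB v g) ∧ (π ≠ π₀ → ¬ A.on v π)

section

variable {A : Atoms C J T Pr} {W : J → C → Sq → Prop} {c : Pr → Sq → Prop} {M : SubM A W}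

/-- The trace of `q` is below the elements of `M` which are above `q`. -/
theorem le_of_trace {q t a : C} (ht : (∀ j u, A.nd t j u ↔ A.nd q j u ∧ M.MJ j) ∧
    ∀ j π, A.pr t j π ↔ A.pr q j π ∧ M.MJ j ∧ M.low π) (ha : M.MC a) (h : A.Le q a) :
    A.Le t a := by
  refine ⟨fun j u hu => (ht.1 j u).2 ⟨h.nd j u hu, M.nd a j u ha hu⟩,
    fun j π hp => (ht.2 j π).2 ⟨h.pr j π hp, M.pr a j π ha hp⟩, fun j u π hu hn hp => ?_⟩
  exact h.new j u π ((ht.1 j u).1 hu).1 hn hp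

/-- The trace of a condition is a condition. -/
theorem ok_trace {q t : C} (hq : A.Ok W c q) (ht : (∀ j u, A.nd t j u ↔ A.nd q j u ∧ M.MJ j) ∧
    ∀ j π, A.pr t j π ↔ A.pr q j π ∧ M.MJ j ∧ M.low π) : A.Ok W c t := by
  intro j π hp
  obtain ⟨h1, h2, -⟩ := (ht.2 j π).1 hp
  obtain ⟨a, σ, h3, h4, h5⟩ := hq j π h1
  exact ⟨a, σ, h3, le_of_trace ht (M.name j a σ h2 h3) h4, h5⟩

/-- Amalgamation of a condition `q` and a condition `t` of `M`. -/
theorem amalg {q t s : C} (hq : A.Ok W c q) (ht : A.Ok W c t) (htM : M.MC t)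
    (h1 : ∀ j v, A.nd q j v → M.MJ j → A.nd t j v)
    (h2 : ∀ j v π, A.nd t j v → ¬ A.nd q j v → A.pr q j π → ¬ A.on v π)
    (hs : (∀ j u, A.nd s j u ↔ A.nd t j u ∨ A.nd q j u) ∧
      ∀ j π, A.pr s j π ↔ A.pr t j π ∨ A.pr q j π) :
    A.Ok W c s ∧ A.Le s t ∧ A.Le s q := by
  have hst : A.Le s t := by
    refine ⟨fun j u hu => (hs.1 j u).2 (Or.inl hu), fun j π hp => (hs.2 j π).2 (Or.inl hp),
      fun j u π hu hn hp => ?_⟩
    rcases (hs.1 j u).1 hu with h3 | h3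
    · exact absurd h3 hn
    · exact absurd (h1 j u h3 (M.pr t j π htM hp).1) hn
  have hsq : A.Le s q := by
    refine ⟨fun j u hu => (hs.1 j u).2 (Or.inr hu), fun j π hp => (hs.2 j π).2 (Or.inr hp),
      fun j u π hu hn hp => ?_⟩
    rcases (hs.1 j u).1 hu with h3 | h3
    · exact h2 j u π h3 hn hp
    · exact absurd h3 hn
  refine ⟨fun j π hp => ?_, hst, hsq⟩
  rcases (hs.2 j π).1 hp with h3 | h3
  · obtain ⟨a, σ, h4, h5, h6⟩ := ht j π h3
    exact ⟨a, σ, h4, hst.trans h5, h6⟩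
  · obtain ⟨a, σ, h4, h5, h6⟩ := hq j π h3
    exact ⟨a, σ, h4, hsq.trans h5, h6⟩

/-- **No unwanted codes** (combinatorial core): no condition `p` forces that `r` codes `w'` and that
`w'` is different from all coded reals. -/
theorem no_unwanted_codes (cl : Clo A M) {c0 : Pr → Sq → Prop}
    -- the name `r` of a set of nodes and the name `w'` of a real
    {R : C → T → Prop} (hR : ∀ a u, R a u → M.MC a)
    {W' : C → Sq → Prop} (hW' : ∀ a σ, W' a σ → M.MC a)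
    -- the branches
    {onB : T → B → Prop} {seg : B → ℕ → T → Prop} {same : B → B → ℕ → Prop} {f : Pr → B}
    (hf : ∀ u π, A.on u π ↔ onB u (f π)) {lev : Sq → ℕ → Prop} {p : C} (hpM : M.MC p)
    {π₀ : Pr} (hπ : ¬ M.low π₀)
    -- some `q ≤ p` bounds the intersection of `r` with the branch of `π₀`
    (F1 : ∃ q m, A.Ok W c q ∧ A.Le q p ∧ ∀ l u, m ≤ l → seg (f π₀) l u → ¬ A.Pos W c R q u)
    -- `c_π(w') = 0` implies that the intersection with the branch of `π` is infinite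
    (F2 : ∀ q π a σ, A.Ok W c q → A.Le q p → W' a σ → A.Le q a → c0 π σ →
      ¬ ∃ m, ∀ l u, m ≤ l → seg (f π) l u → ¬ A.Pos W c R q u)
    -- `w'` is different from the coded reals
    (F3 : ∀ q, A.Ok W c q → A.Le q p → ∃ q' k a' σ', A.Ok W c q' ∧ A.Le q' q ∧ W' a' σ' ∧
      A.Le q' a' ∧ lev σ' k ∧ ∀ j, M.MJ j → A.pr q j π₀ → ∃ a σ, W j a σ ∧ A.Le q' a ∧
        lev σ k ∧ σ ≠ σ')
    -- genericity of the branch of `π₀`
    (G4 : ∀ q m, A.Ok W c q → ¬ Wo A c M R onB seg q π₀ m (f π₀) →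
      ∃ L, ∀ g, same (f π₀) g L → ¬ Wo A c M R onB seg q π₀ m g)
    -- genericity of the sequence of the branches
    (G5 : ∀ L k σ', lev σ' k → ∃ π', same (f π₀) (f π') L ∧
      (∀ σ, lev σ k → σ ≠ σ' → c π' σ) ∧ c0 π' σ') : False := by
  obtain ⟨q1, m, hq1, hq1p, hq1m⟩ := F1
  obtain ⟨q2, k, a', σ', hq2, hq21, hWa, hq2a, hσ', hq2j⟩ := F3 q1 hq1 hq1p
  obtain ⟨t, htM, ht⟩ := cl.trace q2
  obtain ⟨q, hq⟩ := cl.union t q1
  -- the condition `q = t ∪ q1`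
  obtain ⟨hqO, hqt, hqq⟩ := amalg hq1 (ok_trace hq2 ht) htM
    (fun j v h1 h2 => (ht.1 j v).2 ⟨hq21.nd j v h1, h2⟩)
    (fun j v π h1 h2 h3 => hq21.new j v π ((ht.1 j v).1 h1).1 h2 h3) hq
  have hqp : A.Le q p := hqq.trans hq1p
  have hqM : ∀ a, M.MC a → A.Le q2 a → A.Le q a := fun a ha h =>
    hqt.trans (le_of_trace ht ha h)
  have hqm : ∀ l u, m ≤ l → seg (f π₀) l u → ¬ A.Pos W c R q u := by
    rintro l u hl hu ⟨q', a, h1, h2, h3, h4⟩
    exact hq1m l u hl hu ⟨q', a, h1, h2.trans hqq, h3, h4⟩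
  have hqj : ∀ j, M.MJ j → A.pr q j π₀ → ∃ a σ, W j a σ ∧ A.Le q a ∧ lev σ k ∧ σ ≠ σ' := by
    intro j hj hp
    have h1 : A.pr q1 j π₀ := by
      rcases (hq.2 j π₀).1 hp with h | h
      · exact absurd ((ht.2 j π₀).1 h).2.2 hπ
      · exact h
    obtain ⟨a, σ, h2, h3, h4, h5⟩ := hq2j j hj h1
    exact ⟨a, σ, h2, hqM a (M.name j a σ hj h2) h3, h4, h5⟩
  have hqa : A.Le q a' := hqM a' (hW' _ _ hWa) hq2a
  -- the branch of `π₀` is not in the open set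
  have hWo : ¬ Wo A c M R onB seg q π₀ m (f π₀) := by
    rintro ⟨l, u, a, s, hl, hu, hRa, hsO, hsM, hsa, h1, h2, h3, h4⟩
    obtain ⟨v, hv⟩ := cl.union s q
    obtain ⟨hvO, hvs, hvq⟩ := amalg hqO hsO hsM h1 (fun j v π h5 h6 h7 => by
      by_cases hlow : M.low π
      · exact h3 j v π h5 h6 h7 hlow
      · by_cases hπ0 : π = π₀
        · rw [hf, hπ0]
          exact (h4 j v π h5 h6 h7 hlow).1 hπ0
        · exact (h4 j v π h5 h6 h7 hlow).2 hπ0) hv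
    exact hqm l u hl hu ⟨v, a, hvO, hvq, hRa, hvs.trans hsa⟩
  obtain ⟨L, hL⟩ := G4 q m hqO hWo
  obtain ⟨π', hsame, hπ1, hπ0⟩ := G5 L k σ' hσ'
  obtain ⟨s, hs⟩ := cl.swap q π₀ π'
  -- the condition `s`
  have hsM : ∀ a, M.MC a → A.Le q a → A.Le s a := by
    intro a ha h
    refine ⟨fun j u hu => (hs.1 j u).2 ⟨h.nd j u hu, M.nd a j u ha hu⟩, fun j π hp => ?_,
      fun j u π hu hn hp => h.new j u π ((hs.1 j u).1 hu).1 hn hp⟩
    refine (hs.2 j π).2 ⟨(M.pr a j π ha hp).1, Or.inl ⟨h.pr j π hp, ?_⟩⟩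
    rintro rfl
    exact hπ (M.pr a j _ ha hp).2
  have hsO : A.Ok W c s := by
    intro j π hp
    obtain ⟨hj, ⟨h1, -⟩ | ⟨h1, rfl⟩⟩ := (hs.2 j π).1 hp
    · obtain ⟨a, σ, h3, h4, h5⟩ := hqO j π h1
      exact ⟨a, σ, h3, hsM a (M.name j a σ hj h3) h4, h5⟩
    · obtain ⟨a, σ, h3, h4, h5, h6⟩ := hqj j hj h1
      exact ⟨a, σ, h3, hsM a (M.name j a σ hj h3) h4, hπ1 σ h5 h6⟩
  refine F2 s π' a' σ' hsO (hsM p hpM hqp) hWa (hsM a' (hW' _ _ hWa) hqa) hπ0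
    ⟨m, fun l u hl hu hpos => ?_⟩
  obtain ⟨q'', a, h1, h2, h3, h4⟩ := hpos
  obtain ⟨t', htM', ht'⟩ := cl.trace q''
  refine hL (f π') hsame ⟨l, u, a, t', hl, hu, h3, ok_trace h1 ht', htM',
    le_of_trace ht' (hR _ _ h3) h4, fun j v h5 h6 => ?_, fun j π h5 h6 h7 => ?_,
    fun j v π h5 h6 h7 h8 => ?_, fun j v π h5 h6 h7 h8 => ⟨fun h9 => ?_, fun h9 => ?_⟩⟩
  · exact (ht'.1 j v).2 ⟨h2.nd j v ((hs.1 j v).2 ⟨h5, h6⟩), h6⟩
  · refine (ht'.2 j π).2 ⟨h2.pr j π ((hs.2 j π).2 ⟨h6, Or.inl ⟨h5, ?_⟩⟩), h6, h7⟩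
    rintro rfl
    exact hπ h7
  · obtain ⟨h9, h10⟩ := (ht'.1 j v).1 h5
    refine h2.new j v π h9 (fun h11 => h6 ((hs.1 j v).1 h11).1)
      ((hs.2 j π).2 ⟨h10, Or.inl ⟨h7, ?_⟩⟩)
    rintro rfl
    exact hπ h8
  · obtain ⟨h10, h11⟩ := (ht'.1 j v).1 h5
    rw [← hf]
    rw [h9] at h7
    exact h2.new j v π' h10 (fun h12 => h6 ((hs.1 j v).1 h12).1)
      ((hs.2 j π').2 ⟨h11, Or.inr ⟨h7, rfl⟩⟩)
  · obtain ⟨h10, h11⟩ := (ht'.1 j v).1 h5
    exact h2.new j v π h10 (fun h12 => h6 ((hs.1 j v).1 h12).1)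
      ((hs.2 j π).2 ⟨h11, Or.inl ⟨h7, h9⟩⟩)

end

end Pool.Agent.Sep3
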