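import Pool.Agent.Work.MP_1b3f07_lc.Proj

/-!
# Separation on both sides and codings of the ambiguous sets
-/

open Set Topology

namespace Pool.Agent.Sep3

/-- the separation property of a pointclass -/
def Sep (Γ : Set Bai → Prop) : Prop := ∀ A B : Set Bai, Γ A → Γ B → Disjoint A B →
  ∃ C, Γ C ∧ Γ Cᶜ ∧ A ⊆ C ∧ Disjoint C B

section

variable {m : ℕ} {U : Set (Bai × (Bai × Bai))}

/-- the section of `U` with code `ev x` has exactly one point over `x` -/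
def Good (U : Set (Bai × (Bai × Bai))) : Set Bai :=
  {x | (∃ y, (ev x, (x, y)) ∈ U) ∧ ∀ y z, (ev x, (x, y)) ∈ U → (ev x, (x, z)) ∈ U → y = z}

/-- `(od x, y) ∈ R` for a value `y` -/
def Val (U : Set (Bai × (Bai × Bai))) (R : Set (Bai × Bai)) : Set Bai :=
  {x | ∃ y, (ev x, (x, y)) ∈ U ∧ (od x, y) ∈ R}

theorem isSig_ex (hU : IsSig (m + 1) U) : IsSig (m + 1) {x : Bai | ∃ y, (ev x, (x, y)) ∈ U} := by
  refine IsSig.exists (C := {z : Bai × Bai | (ev z.1, (z.1, z.2)) ∈ U}) ?_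
  exact hU.preimage (f := fun z : Bai × Bai => (ev z.1, (z.1, z.2)))
    ((continuous_ev.comp continuous_fst).prodMk continuous_id)

theorem isSig_two (hU : IsSig (m + 1) U) : IsSig (m + 1)
    {x : Bai | ∃ y z, (ev x, (x, y)) ∈ U ∧ (ev x, (x, z)) ∈ U ∧ y ≠ z} := by
  refine IsSig.exists (C := {w : Bai × Bai | ∃ z, (ev w.1, (w.1, w.2)) ∈ U ∧
    (ev w.1, (w.1, z)) ∈ U ∧ w.2 ≠ z}) ?_
  refine IsSig.exists (C := {v : (Bai × Bai) × Bai | (ev v.1.1, (v.1.1, v.1.2)) ∈ U ∧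
    (ev v.1.1, (v.1.1, v.2)) ∈ U ∧ v.1.2 ≠ v.2}) ?_
  have h1 := hU.preimage (f := fun v : (Bai × Bai) × Bai => (ev v.1.1, (v.1.1, v.1.2)))
    ((continuous_ev.comp (by fun_prop)).prodMk (by fun_prop))
  have h2 := hU.preimage (f := fun v : (Bai × Bai) × Bai => (ev v.1.1, (v.1.1, v.2)))
    ((continuous_ev.comp (by fun_prop)).prodMk (by fun_prop))
  have h3 : IsOpen {v : (Bai × Bai) × Bai | v.1.2 ≠ v.2} :=
    isOpen_ne_fun (by fun_prop) (by fun_prop)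
  have h4 : IsSig (m + 1) {v : (Bai × Bai) × Bai | v.1.2 ≠ v.2} := by
    clear h1 h2 hU
    induction m with
    | zero => exact IsSig.of_isOpen h3
    | succ m ih => exact ih.succ
  exact h1.inter (h2.inter h4)

theorem good_eq : Good U = {x : Bai | ∃ y, (ev x, (x, y)) ∈ U} ∩
    {x : Bai | ∃ y z, (ev x, (x, y)) ∈ U ∧ (ev x, (x, z)) ∈ U ∧ y ≠ z}ᶜ := by
  ext x
  simp only [Good, mem_ofPred_eq, mem_inter_iff, mem_compl_iff, not_exists, not_and, not_not]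

theorem isSig_good (hU : IsSig (m + 1) U) : IsSig (m + 2) (Good U) := by
  rw [good_eq]
  exact (isSig_ex hU).succ.inter (IsSig.of_compl (by rw [compl_compl]; exact isSig_two hU))

theorem isSig_good_compl (hU : IsSig (m + 1) U) : IsSig (m + 2) (Good U)ᶜ := by
  rw [good_eq, compl_inter, compl_compl]
  exact (IsSig.of_compl (by rw [compl_compl]; exact isSig_ex hU)).union (isSig_two hU).succ

theorem isSig_val (hU : IsSig (m + 1) U) {R : Set (Bai × Bai)} (hR : IsSig (m + 2) R) :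
    IsSig (m + 2) (Val U R) := by
  refine IsSig.exists (C := {z : Bai × Bai | (ev z.1, (z.1, z.2)) ∈ U ∧ (od z.1, z.2) ∈ R}) ?_
  exact (hU.succ.preimage (f := fun z : Bai × Bai => (ev z.1, (z.1, z.2)))
    ((continuous_ev.comp continuous_fst).prodMk continuous_id)).inter
    (hR.preimage (f := fun z : Bai × Bai => (od z.1, z.2))
      ((continuous_od.comp continuous_fst).prodMk continuous_snd))

theorem compl_good_val {R : Set (Bai × Bai)} :
    (Good U ∩ Val U R)ᶜ = (Good U)ᶜ ∪ Val U Rᶜ := by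
  ext x
  simp only [mem_compl_iff, mem_inter_iff, mem_union]
  constructor
  · intro h
    by_cases hg : x ∈ Good U
    · right
      obtain ⟨⟨y, hy⟩, hu⟩ := hg
      refine ⟨y, hy, fun hR => h ⟨⟨⟨y, hy⟩, hu⟩, y, hy, hR⟩⟩
    · exact Or.inl hg
  · rintro (h | ⟨y, hy, hR⟩) ⟨hg, z, hz, hzR⟩
    · exact h hg
    · rw [hg.2 y z hy hz] at hR
      exact hR hzR

/-- the diagonal argument -/
theorem diag {Γ : Set Bai → Prop} (hΓ : Sep Γ) {P Q : Set (Bai × Bai)} (hPQ : Disjoint P Q)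
    (hP : Γ (Good U ∩ Val U P)) (hQ : Γ (Good U ∩ Val U Q)) :
    ∃ C, Γ C ∧ Γ Cᶜ ∧ ∀ (p d : Bai) (f : Bai → Bai),
      {z : Bai × Bai | z.2 = f z.1} = {z | (p, z) ∈ U} →
      ¬(C = {x | (d, f x) ∈ P} ∧ Cᶜ = {x | (d, f x) ∈ Q}) := by
  obtain ⟨C, hC1, hC2, hsub, hdis⟩ := hΓ (Good U ∩ Val U Q) (Good U ∩ Val U P) hQ hP (by
    rw [disjoint_left]
    rintro x ⟨hg, y, hy, hyQ⟩ ⟨-, z, hz, hzP⟩
    rw [hg.2 y z hy hz] at hyQ
    exact disjoint_left.1 hPQ hzP hyQ)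
  refine ⟨C, hC1, hC2, fun p d f hf ⟨h1, h2⟩ => ?_⟩
  set x := pr p d with hx
  have hev : ev x = p := ev_pr p d
  have hod : od x = d := od_pr p d
  have hU : ∀ y, (ev x, (x, y)) ∈ U ↔ y = f x := by
    intro y
    rw [hev]
    have h3 : (x, y) ∈ {z : Bai × Bai | z.2 = f z.1} ↔ (x, y) ∈ {z | (p, z) ∈ U} := by rw [hf]
    exact h3.symm
  have hg : x ∈ Good U := ⟨⟨f x, (hU _).2 rfl⟩, fun y z hy hz => by
    rw [(hU y).1 hy, (hU z).1 hz]⟩
  by_cases hxC : x ∈ C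
  · have h3 : (d, f x) ∈ P := by
      rw [h1] at hxC
      exact hxC
    exact disjoint_left.1 hdis hxC ⟨hg, f x, (hU _).2 rfl, by rw [hod]; exact h3⟩
  · have h3 : (d, f x) ∈ Q := by
      have h4 : x ∈ Cᶜ := hxC
      rw [h2] at h4
      exact h4
    exact hxC (hsub ⟨hg, f x, (hU _).2 rfl, by rw [hod]; exact h3⟩)

end

/-- one pair of sets -/
theorem exists_one {m : ℕ} (hS : Sep (IsSig (m + 2))) (hP : Sep fun A => IsSig (m + 2) Aᶜ)
    {P Q : Set (Bai × Bai)} (hd : Disjoint P Q)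
    (h : (IsSig (m + 2) P ∧ IsSig (m + 2) Q) ∨ (IsSig (m + 2) Pᶜ ∧ IsSig (m + 2) Qᶜ)) :
    ∃ C : Set Bai, IsSig (m + 2) C ∧ IsSig (m + 2) Cᶜ ∧ ∀ (d : Bai) (f : Bai → Bai),
      IsSig (m + 1) {z : Bai × Bai | z.2 = f z.1} →
      ¬(C = {x | (d, f x) ∈ P} ∧ Cᶜ = {x | (d, f x) ∈ Q}) := by
  obtain ⟨U, hU, hU'⟩ := exists_universal (m + 1) (Bai × Bai)
  rcases h with ⟨h1, h2⟩ | ⟨h1, h2⟩
  · obtain ⟨C, hC1, hC2, hC⟩ := diag (U := U) hS hd ((isSig_good hU).inter (isSig_val hU h1))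
      ((isSig_good hU).inter (isSig_val hU h2))
    refine ⟨C, hC1, hC2, fun d f hf => ?_⟩
    obtain ⟨p, hp⟩ := hU' _ hf
    exact hC p d f hp
  · obtain ⟨C, hC1, hC2, hC⟩ := diag (U := U) hP hd
      (by
        rw [compl_good_val]
        exact (isSig_good_compl hU).union (isSig_val hU h1))
      (by
        rw [compl_good_val]
        exact (isSig_good_compl hU).union (isSig_val hU h2))
    simp only [compl_compl] at hC2
    refine ⟨C, hC2, hC1, fun d f hf => ?_⟩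
    obtain ⟨p, hp⟩ := hU' _ hf
    exact hC p d f hp

/-- **no coding of the ambiguous sets**, if there is separation on both sides -/
theorem exists_all {m : ℕ} (hS : Sep (IsSig (m + 2))) (hP : Sep fun A => IsSig (m + 2) Aᶜ)
    (P Q : ℕ → Set (Bai × Bai)) (hd : ∀ k, Disjoint (P k) (Q k))
    (h : ∀ k, (IsSig (m + 2) (P k) ∧ IsSig (m + 2) (Q k)) ∨
      (IsSig (m + 2) (P k)ᶜ ∧ IsSig (m + 2) (Q k)ᶜ)) :
    ∃ C : Set Bai, IsSig (m + 2) C ∧ IsSig (m + 2) Cᶜ ∧ ∀ (k : ℕ) (d : Bai) (f : Bai → Bai),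
      IsSig (m + 1) {z : Bai × Bai | z.2 = f z.1} →
      ¬(C = {x | (d, f x) ∈ P k} ∧ Cᶜ = {x | (d, f x) ∈ Q k}) := by
  choose C h1 h2 h3 using fun k => exists_one hS hP (hd k) (h k)
  refine ⟨{x | tl x ∈ C (x 0)}, ?_, ?_, fun k d f hf ⟨e1, e2⟩ => ?_⟩
  · exact IsSig.cases (f := fun x : Bai => x 0) (by fun_prop) (A := fun k => tl ⁻¹' C k)
      fun k => (h1 k).preimage continuous_tl
  · exact IsSig.cases (f := fun x : Bai => x 0) (by fun_prop) (A := fun k => tl ⁻¹' (C k)ᶜ)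
      fun k => (h2 k).preimage continuous_tl
  · refine h3 k d (fun x => f (cons k x)) ?_ ⟨?_, ?_⟩
    · exact hf.preimage (f := fun z : Bai × Bai => (cons k z.1, z.2))
        (((continuous_cons k).comp continuous_fst).prodMk continuous_snd)
    · ext x
      have e3 : cons k x ∈ {x | tl x ∈ C (x 0)} ↔ cons k x ∈ {x | (d, f x) ∈ P k} := by
        rw [e1]
      exact e3
    · ext x
      have e3 : cons k x ∈ {x | tl x ∈ C (x 0)}ᶜ ↔ cons k x ∈ {x | (d, f x) ∈ Q k} := by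
        rw [e2]
      exact e3

end Pool.Agent.Sep3
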