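import Mathlib

/-!
# The projective pointclasses
-/

open Set Topology

namespace Pool.Agent.Sep3

/-- Baire space -/
abbrev Bai : Type := ℕ → ℕ

/-- `IsSig n A` for `n ≥ 1`: the set `A` is (boldface) `Σ^1_n`. The sets with `IsSig 0` are the open
sets, and the sets with `IsSig (n + 1)` are the projections along Baire space of the complements of
sets with `IsSig n`. -/
def IsSig : ℕ → ∀ {X : Type} [TopologicalSpace X], Set X → Prop
  | 0, _, _, A => IsOpen A
  | n + 1, X, _, A => ∃ C : Set (X × Bai), IsSig n Cᶜ ∧ A = {x | ∃ y, (x, y) ∈ C}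

variable {X Y : Type} [TopologicalSpace X] [TopologicalSpace Y]

theorem IsSig.preimage {n : ℕ} : ∀ {X Y : Type} [TopologicalSpace X] [TopologicalSpace Y]
    {f : X → Y} (_ : Continuous f) {A : Set Y} (_ : IsSig n A), IsSig n (f ⁻¹' A) := by
  induction n with
  | zero => intro X Y _ _ f hf A hA; exact IsOpen.preimage hf hA
  | succ n ih =>
    intro X Y _ _ f hf A hA
    obtain ⟨C, hC, rfl⟩ := hA
    refine ⟨(fun z : X × Bai => (f z.1, z.2)) ⁻¹' C, ?_, ?_⟩
    · exact ih (f := fun z : X × Bai => (f z.1, z.2)) (by fun_prop) hC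
    · rfl

/-- definition by cases on a continuous function with values in `ℕ` -/
theorem IsSig.cases {n : ℕ} : ∀ {X : Type} [TopologicalSpace X] {f : X → ℕ} (_ : Continuous f)
    {A : ℕ → Set X} (_ : ∀ k, IsSig n (A k)), IsSig n {x | x ∈ A (f x)} := by
  induction n with
  | zero =>
    intro X _ f hf A hA
    have h : {x | x ∈ A (f x)} = ⋃ k, f ⁻¹' {k} ∩ A k := by
      ext x
      simp
    rw [h]
    exact isOpen_iUnion fun k => ((isOpen_discrete {k}).preimage hf).inter (hA k)
  | succ n ih =>
    intro X _ f hf A hA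
    choose C hC hA using hA
    refine ⟨{z | z ∈ C (f z.1)}, ?_, ?_⟩
    · exact ih (f := fun z : X × Bai => f z.1) (by fun_prop) (A := fun k => (C k)ᶜ) hC
    · ext x
      simp [hA]

/-- the tail of a sequence -/
def tl (x : Bai) : Bai := fun n => x (n + 1)

/-- `k` followed by `x` -/
def cons (k : ℕ) (x : Bai) : Bai := fun n => n.casesOn k fun m => x m

theorem continuous_tl : Continuous tl := by
  unfold tl
  fun_prop

theorem continuous_cons (k : ℕ) : Continuous (cons k) := by
  refine continuous_pi fun n => ?_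
  cases n with
  | zero => exact continuous_const
  | succ n => exact continuous_apply n

theorem cons_zero (k : ℕ) (x : Bai) : cons k x 0 = k := rfl

theorem tl_cons (k : ℕ) (x : Bai) : tl (cons k x) = x := rfl

/-- the even and the odd part of a sequence -/
def ev (x : Bai) : Bai := fun n => x (2 * n)

def od (x : Bai) : Bai := fun n => x (2 * n + 1)

def pr (x y : Bai) : Bai := fun n => if n % 2 = 0 then x (n / 2) else y (n / 2)

theorem continuous_ev : Continuous ev := by
  unfold ev
  fun_prop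

theorem continuous_od : Continuous od := by
  unfold od
  fun_prop

theorem ev_pr (x y : Bai) : ev (pr x y) = x := by
  funext n
  simp [ev, pr]

theorem od_pr (x y : Bai) : od (pr x y) = y := by
  funext n
  have h1 : (2 * n + 1) % 2 = 1 := by omega
  have h2 : (2 * n + 1) / 2 = n := by omega
  simp [od, pr, h1, h2]

theorem IsSig.iUnion {n : ℕ} {A : ℕ → Set X} (hA : ∀ k, IsSig n (A k)) : IsSig n (⋃ k, A k) := by
  cases n with
  | zero => exact isOpen_iUnion hA
  | succ n =>
    choose C hC hA using hA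
    refine ⟨{z | (z.1, tl z.2) ∈ C (z.2 0)}, ?_, ?_⟩
    · refine IsSig.cases (f := fun z : X × Bai => z.2 0) (by fun_prop)
        (A := fun k => (fun z : X × Bai => (z.1, tl z.2)) ⁻¹' (C k)ᶜ) fun k => ?_
      exact (hC k).preimage (continuous_fst.prodMk (continuous_tl.comp continuous_snd))
    · ext x
      simp only [mem_iUnion, hA, mem_ofPred_eq]
      constructor
      · rintro ⟨k, y, h⟩
        exact ⟨cons k y, h⟩
      · rintro ⟨y, h⟩
        exact ⟨y 0, tl y, h⟩

theorem IsSig.union {n : ℕ} {A B : Set X} (hA : IsSig n A) (hB : IsSig n B) :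
    IsSig n (A ∪ B) := by
  have h : A ∪ B = ⋃ k : ℕ, (if k = 0 then A else B) := by
    ext x
    simp only [mem_union, mem_iUnion]
    constructor
    · rintro (h | h)
      · exact ⟨0, by simpa using h⟩
      · exact ⟨1, by simpa using h⟩
    · rintro ⟨k, h⟩
      split_ifs at h
      · exact Or.inl h
      · exact Or.inr h
  rw [h]
  refine IsSig.iUnion fun k => ?_
  split_ifs
  · exact hA
  · exact hB

theorem IsSig.inter {n : ℕ} {A B : Set X} (hA : IsSig n A) (hB : IsSig n B) :
    IsSig n (A ∩ B) := by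
  cases n with
  | zero => exact IsOpen.inter hA hB
  | succ n =>
    obtain ⟨C, hC, rfl⟩ := hA
    obtain ⟨D, hD, rfl⟩ := hB
    refine ⟨{z | (z.1, ev z.2) ∈ C ∧ (z.1, od z.2) ∈ D}, ?_, ?_⟩
    · have h : {z : X × Bai | (z.1, ev z.2) ∈ C ∧ (z.1, od z.2) ∈ D}ᶜ =
          (fun z : X × Bai => (z.1, ev z.2)) ⁻¹' Cᶜ ∪ (fun z : X × Bai => (z.1, od z.2)) ⁻¹' Dᶜ := by
        ext z
        simp only [mem_compl_iff, mem_ofPred_eq, mem_union, mem_preimage]
        tauto
      rw [h]
      exact (hC.preimage (continuous_fst.prodMk (continuous_ev.comp continuous_snd))).union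
        (hD.preimage (continuous_fst.prodMk (continuous_od.comp continuous_snd)))
    · ext x
      simp only [mem_inter_iff, mem_ofPred_eq]
      constructor
      · rintro ⟨⟨y, hy⟩, w, hw⟩
        exact ⟨pr y w, by rwa [ev_pr], by rwa [od_pr]⟩
      · rintro ⟨y, h1, h2⟩
        exact ⟨⟨_, h1⟩, _, h2⟩

/-- closure under the quantifier over the reals -/
theorem IsSig.exists {n : ℕ} {C : Set (X × Bai)} (hC : IsSig (n + 1) C) :
    IsSig (n + 1) {x | ∃ y, (x, y) ∈ C} := by
  obtain ⟨E, hE, rfl⟩ := hC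
  refine ⟨{z | ((z.1, ev z.2), od z.2) ∈ E}, ?_, ?_⟩
  · exact hE.preimage (f := fun z : X × Bai => ((z.1, ev z.2), od z.2))
      ((continuous_fst.prodMk (continuous_ev.comp continuous_snd)).prodMk
        (continuous_od.comp continuous_snd))
  · ext x
    simp only [mem_ofPred_eq]
    constructor
    · rintro ⟨y, w, h⟩
      exact ⟨pr y w, by rwa [ev_pr, od_pr]⟩
    · rintro ⟨y, h⟩
      exact ⟨_, _, h⟩

theorem IsSig.of_compl {n : ℕ} {A : Set X} (hA : IsSig n Aᶜ) : IsSig (n + 1) A := by
  refine ⟨Prod.fst ⁻¹' A, ?_, ?_⟩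
  · exact hA.preimage continuous_fst
  · ext x
    simp

theorem IsSig.of_isClosed {A : Set X} (hA : IsClosed A) : IsSig 1 A :=
  IsSig.of_compl (n := 0) hA.isOpen_compl

theorem IsSig.of_isOpen [TopologicalSpace.MetrizableSpace X] {A : Set X} (hA : IsOpen A) :
    IsSig 1 A := by
  let _ := TopologicalSpace.metrizableSpaceMetric X
  obtain ⟨F, hF, -, hU, -⟩ := hA.exists_iUnion_isClosed
  rw [← hU]
  exact IsSig.iUnion fun k => IsSig.of_isClosed (hF k)

theorem IsSig.succ {n : ℕ} : ∀ {X : Type} [TopologicalSpace X]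
    [TopologicalSpace.MetrizableSpace X] {A : Set X} (_ : IsSig n A), IsSig (n + 1) A := by
  induction n with
  | zero => intro X _ _ A hA; exact IsSig.of_isOpen hA
  | succ n ih =>
    intro X _ _ A hA
    obtain ⟨C, hC, rfl⟩ := hA
    exact ⟨C, ih hC, rfl⟩

/-- the universal sets -/
theorem exists_universal (n : ℕ) : ∀ (X : Type) [TopologicalSpace X] [SecondCountableTopology X],
    ∃ U : Set (Bai × X), IsSig n U ∧ ∀ A : Set X, IsSig n A → ∃ p, A = {x | (p, x) ∈ U} := by
  induction n with
  | zero =>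
    intro X _ _
    obtain ⟨b, hb1, -, hb2⟩ := TopologicalSpace.exists_countable_basis X
    have hb3 : (insert ∅ b).Countable := hb1.insert _
    obtain ⟨e, he⟩ := hb3.exists_eq_range (insert_nonempty _ _)
    have heo : ∀ k, IsOpen (e k) := by
      intro k
      have h1 : e k ∈ insert ∅ b := he ▸ mem_range_self k
      rcases h1 with h1 | h1
      · rw [h1]; exact isOpen_empty
      · exact hb2.isOpen h1
    refine ⟨{z | ∃ k, z.2 ∈ e (z.1 k)}, ?_, fun A hA => ?_⟩
    · have h : {z : Bai × X | ∃ k, z.2 ∈ e (z.1 k)} =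
          ⋃ k, ⋃ j, {z : Bai × X | z.1 k = j} ∩ Prod.snd ⁻¹' (e j) := by
        ext z
        simp
      rw [h]
      refine isOpen_iUnion fun k => isOpen_iUnion fun j => IsOpen.inter ?_
        ((heo j).preimage continuous_snd)
      exact (isOpen_discrete {j}).preimage (f := fun z : Bai × X => z.1 k) (by fun_prop)
    · have h1 : {s | s ∈ b ∧ s ⊆ A} ⊆ range e := by
        intro s hs
        rw [← he]
        exact Or.inr hs.1
      have h2 : (insert ∅ {s | s ∈ b ∧ s ⊆ A}).Countable :=
        (hb1.mono fun s hs => hs.1).insert _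
      obtain ⟨g, hg⟩ := h2.exists_eq_range (insert_nonempty _ _)
      have h3 : ∀ k, ∃ j, e j = g k := by
        intro k
        have h4 : g k ∈ insert ∅ {s | s ∈ b ∧ s ⊆ A} := hg ▸ mem_range_self k
        rcases h4 with h4 | h4
        · have : (∅ : Set X) ∈ range e := by
            rw [← he]
            exact Or.inl rfl
          obtain ⟨j, hj⟩ := this
          exact ⟨j, hj.trans h4.symm⟩
        · exact h1 h4
      choose p hp using h3
      refine ⟨p, ?_⟩
      ext x
      simp only [mem_ofPred_eq, hp]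
      constructor
      · intro hx
        obtain ⟨s, hs, hxs, hsA⟩ := hb2.exists_subset_of_mem_open hx hA
        have h5 : s ∈ range g := by
          rw [← hg]
          exact Or.inr ⟨hs, hsA⟩
        obtain ⟨k, hk⟩ := h5
        exact ⟨k, by rw [hk]; exact hxs⟩
      · rintro ⟨k, hk⟩
        have h4 : g k ∈ insert ∅ {s | s ∈ b ∧ s ⊆ A} := hg ▸ mem_range_self k
        rcases h4 with h4 | h4
        · rw [h4] at hk
          exact absurd hk (notMem_empty _)
        · exact h4.2 hk
  | succ n ih =>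
    intro X _ _
    obtain ⟨V, hV, hV'⟩ := ih (X × Bai)
    refine ⟨{z | ∃ y, (z.1, (z.2, y)) ∉ V}, ?_, fun A hA => ?_⟩
    · refine ⟨{z | (z.1.1, (z.1.2, z.2)) ∉ V}, ?_, rfl⟩
      have h : {z : (Bai × X) × Bai | (z.1.1, (z.1.2, z.2)) ∉ V}ᶜ =
          (fun z : (Bai × X) × Bai => (z.1.1, (z.1.2, z.2))) ⁻¹' V := by
        ext z
        simp
      rw [h]
      exact hV.preimage (by fun_prop)
    · obtain ⟨C, hC, rfl⟩ := hA
      obtain ⟨p, hp⟩ := hV' _ hC
      refine ⟨p, ?_⟩
      ext x
      simp only [mem_ofPred_eq]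
      refine exists_congr fun y => ?_
      have h1 : (x, y) ∈ Cᶜ ↔ (p, (x, y)) ∈ V := by
        rw [hp]
        rfl
      rw [← h1, notMem_compl_iff]

end Pool.Agent.Sep3
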